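import Pool.Agent.Helper882.Density

set_option autoImplicit false
set_option linter.unusedSectionVars false

open MeasureTheory Set Topology Filter
open scoped NNReal ENNReal
open Pool.Agent.Helper882.UniformAlgebra

namespace Pool.Agent.Results.MP_dbea21_an.NotWeakStarDense

section defs

variable {S : Type} [TopologicalSpace S] [CompactSpace S] [MeasurableSpace S] [BorelSpace S]

/-- The integral of `log |f|`, a value in `[-∞, ∞)`: the integral of the positive part of
`log |f|` minus the integral of its negative part, where `log 0 = -∞`. -/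
noncomputable def logInt (μ : Measure S) (f : C(S, ℂ)) : EReal :=
  ((∫⁻ s, ENNReal.ofReal (Real.log ‖f s‖) ∂μ : ℝ≥0∞) : EReal) -
    ((∫⁻ s, (if f s = 0 then ⊤ else ENNReal.ofReal (-Real.log ‖f s‖)) ∂μ : ℝ≥0∞) : EReal)

/-- `σ` is a greatest element of `M` for the log-modulus order. -/
def Greatest (A : Subalgebra ℂ C(S, ℂ)) (M : Set (FiniteMeasure S)) (σ : FiniteMeasure S) : Prop :=
  σ ∈ M ∧ ∀ ν ∈ M, ∀ f ∈ A, logInt (ν : Measure S) f ≤ logInt (σ : Measure S) f

end defs

lemma dense_closed {X : Type*} (τ : TopologicalSpace X) {s t : Set X} (h1 : s ⊆ t)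
    (h2 : @IsClosed X τ t) (h3 : @Dense X τ s) (x : X) : x ∈ t :=
  closure_minimal h1 h2 (h3 x)

/-- There are a compact space `S`, an algebra `A` satisfying the standing hypotheses, a measure `μ`
such that the functions `f + conj g` are dense in `L^1(μ)`, and a greatest element `σ` of `K(μ)`
such that the functions `f + conj g` are not weak-star dense in `L^∞(σ)`. -/
theorem result :
    ∃ (S : Type) (_ : TopologicalSpace S) (_ : CompactSpace S) (_ : T2Space S)
      (_ : MeasurableSpace S) (_ : BorelSpace S) (A : Subalgebra ℂ C(S, ℂ)) (μ σ : FiniteMeasure S),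
      Admissible A ∧ (μ : Measure S).Regular ∧
      Dense (sumSet A (μ : Measure S) 1) ∧
      Greatest A (KK A μ) σ ∧
      ¬ @Dense _ (weakStar (σ : Measure S)) (sumSet A (σ : Measure S) ∞) := by
  let ω : Bool → Measure TT := fun _ => (1 : ℝ≥0) • WW
  have hfin : IsFiniteMeasure (PP ω) := by
    constructor
    rw [PP_apply _ _ MeasurableSet.univ, tsum_bool]
    simp only [preimage_univ]
    exact ENNReal.add_lt_top.mpr ⟨measure_lt_top _ _, measure_lt_top _ _⟩
  have hsmall : ∀ k, Small (ω k) := fun k => small_WW 1
  have hac : ∀ k, (volume : Measure TT) ≪ ω k := by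
    intro k
    show (volume : Measure TT) ≪ (1 : ℝ≥0) • WW
    rw [one_smul]
    exact vol_ac_WW
  refine ⟨PolyDisc Bool, inferInstance, inferInstance, inferInstance, inferInstance, inferInstance,
    polyAlg Bool, PPf ω hfin, PPf ω hfin, polyAlg_admissible Bool, regular_all _, ?_, ?_, ?_⟩
  · exact dense_sum ω (fun _ => 1) (fun _ => rfl)
  · refine ⟨self_mem_KK _ _ (regular_all _), ?_⟩
    intro ν hν f _
    have h1 := EE_of_small ω hfin hsmall
    have h2 : ν ∈ closure (EE (polyAlg Bool) (PPf ω hfin)) := hν.2
    rw [h1, closure_singleton] at h2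
    rw [h2]
  · obtain ⟨h, hh⟩ := exists_density ω true (hac true)
    obtain ⟨h', hh'⟩ := exists_density ω false (hac false)
    intro hdense
    let μ : Measure (PolyDisc Bool) := PP ω
    have hcl : @IsClosed _ (weakStar μ) {u : Lp ℂ ∞ μ | ∫ s, u s * h s ∂μ = ∫ s, u s * h' s ∂μ} := by
      exact @isClosed_eq _ _ _ (weakStar μ) _ _ _ (weakStar_cont μ h) (weakStar_cont μ h')
    have hmap : ∀ i, (volume : Measure TT).map (circ i) ≪ μ := by
      intro i
      have h1 : (volume : Measure TT).map (circ i) ≪ (ω i).map (circ i) :=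
        (hac i).map (circ_embedding i).measurable
      exact h1.trans (Measure.absolutelyContinuous_of_le (Measure.le_sum _ i))
    have hsub : sumSet (polyAlg Bool) μ ∞ ⊆
        {u : Lp ℂ ∞ μ | ∫ s, u s * h s ∂μ = ∫ s, u s * h' s ∂μ} := by
      rintro u ⟨f, hf, g, hg, hu⟩
      show ∫ s, u s * h s ∂μ = ∫ s, u s * h' s ∂μ
      rw [hh u (Lp.aestronglyMeasurable u), hh' u (Lp.aestronglyMeasurable u)]
      have hval : ∀ i, ∫ x : TT, u (circ i x) =
          f (fun _ => ⟨0, by simp⟩) + (starRingEnd ℂ) (g (fun _ => ⟨0, by simp⟩)) := by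
        intro i
        have h1 : ∀ᵐ x : TT, u (circ i x) = f (circ i x) + (starRingEnd ℂ) (g (circ i x)) := by
          have h2 := (hmap i).ae_le hu
          exact (circ_embedding i).ae_map_iff.mp h2
        rw [integral_congr_ae h1]
        have hif : Integrable (fun x : TT => f (circ i x)) :=
          (BoundedContinuousFunction.mkOfCompact
            (f.comp ⟨circ i, circ_continuous i⟩)).integrable _
        have hig : Integrable (fun x : TT => (starRingEnd ℂ) (g (circ i x))) :=
          (BoundedContinuousFunction.mkOfCompact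
            (⟨fun x => (starRingEnd ℂ) (g (circ i x)),
              Complex.continuous_conj.comp (g.continuous.comp (circ_continuous i))⟩ :
                C(TT, ℂ))).integrable _
        rw [integral_add hif hig, mean_value i f hf, integral_conj, mean_value i g hg]
      rw [hval true, hval false]
    -- a function separating the two circles
    let U : Set (PolyDisc Bool) := range (circ true)
    have hU : MeasurableSet U := (circ_embedding true).measurableSet_range
    let v : Lp ℂ ∞ μ := indicatorConstLp ∞ hU (measure_ne_top μ U) (1 : ℂ)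
    have hv : ∀ᵐ s ∂μ, v s = U.indicator (fun _ => (1 : ℂ)) s := indicatorConstLp_coeFn
    have hv1 : ∫ s, v s * h s ∂μ = 1 := by
      rw [hh v (Lp.aestronglyMeasurable v)]
      have h1 : ∀ᵐ x : TT, v (circ true x) = 1 := by
        have h2 := (circ_embedding true).ae_map_iff.mp ((hmap true).ae_le hv)
        filter_upwards [h2] with x hx
        rw [hx]
        exact Set.indicator_of_mem (Set.mem_range_self x) _
      rw [integral_congr_ae h1]
      have h5 : (volume : Measure TT).real univ = 1 := by
        rw [measureReal_def, UnitAddCircle.measure_univ]; rfl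
      simp [h5]
    have hv2 : ∫ s, v s * h' s ∂μ = 0 := by
      rw [hh' v (Lp.aestronglyMeasurable v)]
      have h1 : ∀ᵐ x : TT, v (circ false x) = 0 := by
        have h2 := (circ_embedding false).ae_map_iff.mp ((hmap false).ae_le hv)
        filter_upwards [h2] with x hx
        rw [hx]
        apply Set.indicator_of_notMem
        exact Set.disjoint_left.mp (circ_disjoint (by simp)) (Set.mem_range_self x)
      rw [integral_congr_ae h1]
      simp
    have hmem : v ∈ {u : Lp ℂ ∞ μ | ∫ s, u s * h s ∂μ = ∫ s, u s * h' s ∂μ} :=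
      dense_closed (weakStar μ) hsub hcl hdense v
    have h3 : ∫ s, v s * h s ∂μ = ∫ s, v s * h' s ∂μ := hmem
    rw [hv1, hv2] at h3
    exact one_ne_zero h3

end Pool.Agent.Results.MP_dbea21_an.NotWeakStarDense
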